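import Pool.Agent.MWGI.StmtsE

/-!
# MWGI, row RTZ0: empty blocks can be deleted from canonical words
-/

set_option autoImplicit false

namespace Pool.Agent.MWGI.H22

open Pool.Agent.Helper14_MV Pool.Agent.Helper2_MV Pool.Agent.MVO Pool.Agent.MWL Pool.Agent.MWS
  Pool.Agent.MWH

/-- insert an empty block -/
def ins (j : ℕ) (C : ℕ → List ℕ) : ℕ → List ℕ := fun t =>
  if t < j then C t else if t = j then [] else C (t - 1)

def sg (j c : ℕ) : List ℕ :=
  if c ≤ 1 then [c] else if c ≤ j then [c] else if c = j + 1 ∧ 1 ≤ j then [j + 1, j + 2] else [c + 1]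

def ta (j c : ℕ) : List ℕ :=
  if c ≤ 1 then [c] else if c ≤ j then [c] else if c = max j 1 + 1 then [] else [c - 1]

theorem fix_blk {σ : ℕ → List ℕ} (h : ∀ c ≤ 1, σ c = [c]) {l : List ℕ} (hl : ∀ c ∈ l, c ≤ 1) :
    l.flatMap σ = l := by
  induction l with
  | nil => rfl
  | cons a l ih =>
    rw [List.flatMap_cons, h a (hl a (by simp)), ih (fun c hc => hl c (by simp [hc]))]
    rfl

theorem sg_one (j : ℕ) : ∀ c ≤ 1, sg j c = [c] := by
  intro c hc
  unfold sg
  rw [if_pos hc]

theorem ta_one (j : ℕ) : ∀ c ≤ 1, ta j c = [c] := by
  intro c hc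
  unfold ta
  rw [if_pos hc]

theorem ins_low {j : ℕ} (C : ℕ → List ℕ) {m : ℕ} (h : m < j) : asm m (ins j C) = asm m C := by
  apply asm_congr
  intro t ht
  unfold ins
  rw [if_pos (by omega)]

section
variable {C : ℕ → List ℕ} (hC : ∀ t, ∀ c ∈ C t, c ≤ 1)
include hC

theorem sg_low (j : ℕ) : ∀ m, m < j → (asm m C).flatMap (sg j) = asm m C := by
  intro m
  induction m with
  | zero =>
    intro _
    exact fix_blk (sg_one j) (hC 0)
  | succ m ih =>
    intro h
    simp only [asm]
    rw [List.flatMap_append, List.flatMap_cons, ih (by omega), fix_blk (sg_one j) (hC (m + 1))]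
    have e : sg j (m + 2) = [m + 2] := by
      unfold sg
      rw [if_neg (by omega), if_pos (by omega)]
    rw [e]
    rfl

theorem sg_mid {j : ℕ} (hj : 1 ≤ j) : ∀ m, j ≤ m →
    (asm m C).flatMap (sg j) = asm (m + 1) (ins j C) := by
  intro m hm
  induction m, hm using Nat.le_induction with
  | base =>
    obtain ⟨r, rfl⟩ : ∃ r, j = r + 1 := ⟨j - 1, by omega⟩
    simp only [asm]
    rw [List.flatMap_append, List.flatMap_cons, sg_low hC (r + 1) r (by omega),
      fix_blk (sg_one _) (hC (r + 1)), ins_low C (by omega : r < r + 1)]
    have e : sg (r + 1) (r + 2) = [r + 2, r + 3] := by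
      unfold sg
      rw [if_neg (by omega), if_neg (by omega), if_pos ⟨rfl, by omega⟩]
    have e1 : ins (r + 1) C (r + 1) = [] := by
      unfold ins
      rw [if_neg (by omega), if_pos rfl]
    have e2 : ins (r + 1) C (r + 1 + 1) = C (r + 1) := by
      unfold ins
      rw [if_neg (by omega), if_neg (by omega)]
      rfl
    rw [e, e1, e2]
    simp
  | succ m hm ih =>
    simp only [asm] at ih ⊢
    rw [List.flatMap_append, List.flatMap_cons, ih, fix_blk (sg_one _) (hC (m + 1))]
    have e : sg j (m + 2) = [m + 3] := by
      unfold sg
      rw [if_neg (by omega), if_neg (by omega), if_neg (by omega)]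
    have e2 : ins j C (m + 1 + 1) = C (m + 1) := by
      unfold ins
      rw [if_neg (by omega), if_neg (by omega)]
      rfl
    rw [e, e2]
    rfl

theorem sg_zero : ∀ m, [2] ++ (asm m C).flatMap (sg 0) = asm (m + 1) (ins 0 C) := by
  intro m
  induction m with
  | zero =>
    simp only [asm]
    rw [fix_blk (sg_one 0) (hC 0)]
    rfl
  | succ m ih =>
    simp only [asm] at ih ⊢
    rw [List.flatMap_append, List.flatMap_cons, fix_blk (sg_one _) (hC (m + 1)),
      ← List.append_assoc, ih]
    rfl

theorem ta_low (j : ℕ) : ∀ m, m < j → (asm m C).flatMap (ta j) = asm m C := by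
  intro m
  induction m with
  | zero =>
    intro _
    exact fix_blk (ta_one j) (hC 0)
  | succ m ih =>
    intro h
    simp only [asm]
    rw [List.flatMap_append, List.flatMap_cons, ih (by omega), fix_blk (ta_one j) (hC (m + 1))]
    have e : ta j (m + 2) = [m + 2] := by
      unfold ta
      rw [if_neg (by omega), if_pos (by omega)]
    rw [e]
    rfl

theorem ta_mid (j : ℕ) : ∀ m, j ≤ m + 1 → (asm (m + 1) (ins j C)).flatMap (ta j) = asm m C := by
  intro m
  induction m with
  | zero =>
    intro h
    simp only [asm]
    rw [List.flatMap_append, List.flatMap_cons]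
    have e : ta j 2 = [] := by
      unfold ta
      rw [if_neg (by omega), if_neg (by omega), if_pos (by omega)]
    rw [e]
    rcases (by omega : j = 0 ∨ j = 1) with h0 | h0
    · subst h0
      have e1 : ins 0 C 0 = [] := rfl
      have e2 : ins 0 C (0 + 1) = C 0 := rfl
      rw [e1, e2, fix_blk (ta_one _) (hC 0)]
      rfl
    · subst h0
      have e1 : ins 1 C 0 = C 0 := rfl
      have e2 : ins 1 C (0 + 1) = [] := rfl
      rw [e1, e2, fix_blk (ta_one _) (hC 0)]
      simp
  | succ m ih =>
    intro h
    rcases (by omega : j = m + 2 ∨ j ≤ m + 1) with h0 | h0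
    · subst h0
      have e0 : asm (m + 1 + 1) (ins (m + 2) C) = asm (m + 1) (ins (m + 2) C) ++
        (m + 3) :: ins (m + 2) C (m + 2) := rfl
      have e1 : ins (m + 2) C (m + 2) = [] := by
        unfold ins
        rw [if_neg (by omega), if_pos rfl]
      have e2 : ta (m + 2) (m + 3) = [] := by
        unfold ta
        rw [if_neg (by omega), if_neg (by omega), if_pos (by omega)]
      rw [e0, e1, List.flatMap_append, List.flatMap_cons, e2, ins_low C (by omega : m + 1 < m + 2),
        ta_low hC (m + 2) (m + 1) (by omega)]
      simp
    · have e0 : asm (m + 1 + 1) (ins j C) = asm (m + 1) (ins j C) ++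
        (m + 3) :: ins j C (m + 2) := rfl
      have e1 : ins j C (m + 2) = C (m + 1) := by
        unfold ins
        rw [if_neg (by omega), if_neg (by omega)]
        rfl
      have e2 : ta j (m + 3) = [m + 2] := by
        unfold ta
        rw [if_neg (by omega), if_neg (by omega), if_neg (by omega)]
        rfl
      rw [e0, e1, List.flatMap_append, List.flatMap_cons, e2, ih h0,
        fix_blk (ta_one _) (hC (m + 1))]
      rfl

end

theorem step {C C' : ℕ → List ℕ} (hC : ∀ t, ∀ c ∈ C t, c ≤ 1) (hC' : ∀ t, ∀ c ∈ C' t, c ≤ 1)
    {j m : ℕ} (hj : j ≤ m + 1) (θ : FIC) :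
    RR θ (asm (m + 1) (ins j C)) (asm (m + 1) (ins j C')) ↔ RR θ (asm m C) (asm m C') := by
  constructor
  · intro h
    have h2 := h.sub (ta j)
    rw [ta_mid hC j m hj, ta_mid hC' j m hj] at h2
    exact h2
  · intro h
    rcases (by omega : j = 0 ∨ (1 ≤ j ∧ j ≤ m) ∨ j = m + 1) with h0 | ⟨h1, h2⟩ | h0
    · subst h0
      rw [← sg_zero hC m, ← sg_zero hC' m]
      exact (RR.refl (β := θ) _).append (h.sub _)
    · rw [← sg_mid hC h1 m h2, ← sg_mid hC' h1 m h2]
      exact h.sub _
    · subst h0
      have e : ∀ D : ℕ → List ℕ, asm (m + 1) (ins (m + 1) D) = asm m D ++ [m + 2] := by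
        intro D
        have e0 : asm (m + 1) (ins (m + 1) D) = asm m (ins (m + 1) D) ++
          (m + 2) :: ins (m + 1) D (m + 1) := rfl
        have e1 : ins (m + 1) D (m + 1) = [] := by
          unfold ins
          rw [if_neg (by omega), if_pos rfl]
        rw [e0, e1, ins_low D (by omega : m < m + 1)]
      rw [e, e]
      exact h.append (RR.refl (β := θ) _)

theorem wz_le (n i p : ℕ) (Z : ℕ → Bool) (u v t : ℕ) : ∀ c ∈ wz n i p Z u v t, c ≤ 1 := by
  intro c hc
  unfold wz at hc
  split_ifs at hc
  · rw [List.mem_append, List.mem_cons] at hc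
    rcases hc with h | h | h
    · rw [List.eq_of_mem_replicate h]; omega
    · omega
    · rw [List.eq_of_mem_replicate h]; omega
  · rw [List.mem_singleton] at hc
    omega
  · rw [List.eq_of_mem_replicate hc]; omega
  · simp at hc

theorem rtz0 : Rtz0Stmt := by
  intro n k
  induction k with
  | zero =>
    intro i p Z hi hp hip
    omega
  | succ m ih =>
    intro i p Z hi hp hip
    by_cases hall : ∀ j ≤ m + 1, j ≠ i → j ≠ p → Z j = true
    · refine ⟨m + 1, i, p, hi, hp, hip, ?_⟩
      intro θ u v u' v'
      have e : ∀ a b, asm (m + 1) (wz n i p Z a b) = asm (m + 1) (wz n i p Za a b) := by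
        intro a b
        apply asm_congr
        intro t ht
        unfold wz
        by_cases h1 : t = i
        · rw [if_pos h1, if_pos h1]
        · rw [if_neg h1, if_neg h1]
          by_cases h2 : t = p
          · rw [if_pos h2, if_pos h2]
          · rw [if_neg h2, if_neg h2, hall t ht h1 h2]
            rfl
      unfold Wz
      rw [e, e]
    · push_neg at hall
      obtain ⟨j, hj, hji, hjp, hZ⟩ := hall
      have hZ' : Z j = false := by
        cases h : Z j
        · rfl
        · exact absurd h hZ
      obtain ⟨k', i', p', h1, h2, h3, h4⟩ := ih (if i < j then i else i - 1)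
        (if p < j then p else p - 1) (fun t => if t < j then Z t else Z (t + 1))
        (by split_ifs <;> omega) (by split_ifs <;> omega) (by split_ifs <;> omega)
      refine ⟨k', i', p', h1, h2, h3, ?_⟩
      intro θ u v u' v'
      rw [← h4 θ u v u' v']
      have e : ∀ a b, asm (m + 1) (wz n i p Z a b) = asm (m + 1) (ins j (wz n
          (if i < j then i else i - 1) (if p < j then p else p - 1)
          (fun t => if t < j then Z t else Z (t + 1)) a b)) := by
        intro a b
        apply asm_congr
        intro t ht
        unfold ins wz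
        by_cases c1 : t < j
        · rw [if_pos c1]
          by_cases d1 : t = i
          · have d2 : t = (if i < j then i else i - 1) := by
              rw [if_pos (by omega)]; exact d1
            rw [if_pos d1, if_pos d2]
          · have d2 : ¬ t = (if i < j then i else i - 1) := by
              split_ifs <;> omega
            rw [if_neg d1, if_neg d2]
            by_cases d3 : t = p
            · have d4 : t = (if p < j then p else p - 1) := by
                rw [if_pos (by omega)]; exact d3
              rw [if_pos d3, if_pos d4]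
            · have d4 : ¬ t = (if p < j then p else p - 1) := by
                split_ifs <;> omega
              rw [if_neg d3, if_neg d4]
              simp only [c1, if_true]
        · rw [if_neg c1]
          by_cases c2 : t = j
          · rw [if_pos c2, if_neg (by omega), if_neg (by omega), c2, hZ']
            rfl
          · rw [if_neg c2]
            by_cases d1 : t = i
            · have d2 : t - 1 = (if i < j then i else i - 1) := by
                rw [if_neg (by omega), d1]
              rw [if_pos d1, if_pos d2]
            · have d2 : ¬ t - 1 = (if i < j then i else i - 1) := by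
                split_ifs <;> omega
              rw [if_neg d1, if_neg d2]
              by_cases d3 : t = p
              · have d4 : t - 1 = (if p < j then p else p - 1) := by
                  rw [if_neg (by omega), d3]
                rw [if_pos d3, if_pos d4]
              · have d4 : ¬ t - 1 = (if p < j then p else p - 1) := by
                  split_ifs <;> omega
                rw [if_neg d3, if_neg d4]
                have c3 : ¬ t - 1 < j := by omega
                have c4 : t - 1 + 1 = t := by omega
                simp only [c3, if_false, c4]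
      unfold Wz
      rw [e, e]
      exact step (fun t => wz_le _ _ _ _ _ _ t) (fun t => wz_le _ _ _ _ _ _ t) hj θ

end Pool.Agent.MWGI.H22
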